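import Mathlib

/-!
An acyclicity criterion for families of finite sets by a double complex argument.
-/

namespace Pool.Agent.V11212.HC

open Finset

variable {V : Type} [Fintype V] [DecidableEq V] {k : Type} [CommRing k]

/-- the sign of inserting `v` into `T`, for the order given by `o` -/
def sg (k : Type) [CommRing k] (o : V → ℕ) (T : Finset V) (v : V) : k :=
  (-1) ^ (T.filter (fun u => o u < o v)).card

theorem sg_mul_self (o : V → ℕ) (T : Finset V) (v : V) : sg k o T v * sg k o T v = 1 := by
  rw [sg, ← mul_pow]; simp

theorem sg_insert_lt {o : V → ℕ} {T : Finset V} {v w : V} (hv : v ∉ T) (h : o v < o w) :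
    sg k o (insert v T) w = - sg k o T w := by
  rw [sg, sg, Finset.filter_insert, if_pos h, Finset.card_insert_of_notMem, pow_succ]
  · ring
  · simp [hv]

theorem sg_insert_gt {o : V → ℕ} {T : Finset V} {v w : V} (h : o w < o v) :
    sg k o (insert v T) w = sg k o T w := by
  rw [sg, sg, Finset.filter_insert, if_neg (by omega)]

/-- the sign identity -/
theorem sg_swap {o : V → ℕ} (ho : Function.Injective o) {T : Finset V} {v w : V}
    (hv : v ∉ T) (hw : w ∉ T) (hvw : v ≠ w) :
    sg k o T v * sg k o (insert v T) w + sg k o T w * sg k o (insert w T) v = 0 := by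
  rcases lt_or_gt_of_ne (fun h => hvw (ho h)) with h | h
  · rw [sg_insert_lt hv h, sg_insert_gt h]; ring
  · rw [sg_insert_gt h, sg_insert_lt hw h]; ring

theorem sg_swap' {o : V → ℕ} (ho : Function.Injective o) {T : Finset V} {v w : V}
    (hv : v ∉ T) (hw : w ∉ T) (hvw : v ≠ w) :
    sg k o (insert v T) w * sg k o (insert w T) v + sg k o T v * sg k o T w = 0 := by
  rcases lt_or_gt_of_ne (fun h => hvw (ho h)) with h | h
  · rw [sg_insert_lt hv h, sg_insert_gt h]; ring
  · rw [sg_insert_gt h, sg_insert_lt hw h]; ring

/-- boundary of a function on finite sets -/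
def bd (o : V → ℕ) (F : Finset V → k) (T : Finset V) : k :=
  ∑ v, if v ∈ T then 0 else sg k o T v * F (insert v T)

/-- coboundary of a function on finite sets -/
def cobd (o : V → ℕ) (F : Finset V → k) (T : Finset V) : k :=
  ∑ v, if v ∈ T then sg k o (T.erase v) v * F (T.erase v) else 0

/-- two variable functions -/
abbrev Fn (V k : Type) : Type := Finset V → Finset V → k

open Classical in
/-- truncated boundary in the first variable -/
noncomputable def DB (o : V → ℕ) (P : Finset V → Finset V → Prop) (F : Fn V k) : Fn V k :=
  fun s z => if P s z then bd o (fun t => F t z) s else 0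

open Classical in
/-- truncated coboundary in the second variable -/
noncomputable def DC (o : V → ℕ) (P : Finset V → Finset V → Prop) (F : Fn V k) : Fn V k :=
  fun s z => if P s z then cobd o (F s) z else 0

/-- support condition -/
def Supp (P : Finset V → Finset V → Prop) (F : Fn V k) : Prop := ∀ s z, ¬ P s z → F s z = 0

/-- the admissible index sets -/
structure Adm (P : Finset V → Finset V → Prop) : Prop where
  conv : ∀ s t u z, P s z → s ⊆ t → t ⊆ u → P u z → P t z
  down : ∀ s z z', P s z → z' ⊆ z → P s z'
  mono : ∀ s t z, P s z → s ⊆ t → P t ∅ → P t z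

variable {o : V → ℕ} {P : Finset V → Finset V → Prop}

theorem DB_supp (F : Fn V k) : Supp P (DB o P F) := fun s z h => by rw [DB, if_neg h]
theorem DC_supp (F : Fn V k) : Supp P (DC o P F) := fun s z h => by rw [DC, if_neg h]

theorem bd_add (F G : Finset V → k) (T : Finset V) : bd o (F + G) T = bd o F T + bd o G T := by
  rw [bd, bd, bd, ← Finset.sum_add_distrib]
  refine Finset.sum_congr rfl fun v _ => ?_
  split_ifs
  · simp
  · simp only [Pi.add_apply]; ring

theorem cobd_add (F G : Finset V → k) (T : Finset V) :
    cobd o (F + G) T = cobd o F T + cobd o G T := by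
  rw [cobd, cobd, cobd, ← Finset.sum_add_distrib]
  refine Finset.sum_congr rfl fun v _ => ?_
  split_ifs
  · simp only [Pi.add_apply]; ring
  · simp

theorem bd_neg (F : Finset V → k) (T : Finset V) : bd o (-F) T = - bd o F T := by
  rw [bd, bd, ← Finset.sum_neg_distrib]
  refine Finset.sum_congr rfl fun v _ => ?_
  split_ifs
  · simp
  · simp only [Pi.neg_apply]; ring

theorem cobd_neg (F : Finset V → k) (T : Finset V) : cobd o (-F) T = - cobd o F T := by
  rw [cobd, cobd, ← Finset.sum_neg_distrib]
  refine Finset.sum_congr rfl fun v _ => ?_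
  split_ifs
  · simp only [Pi.neg_apply]; ring
  · simp

theorem DB_add (F G : Fn V k) : DB o P (F + G) = DB o P F + DB o P G := by
  funext s z
  simp only [DB, Pi.add_apply]
  split_ifs
  · exact bd_add (fun t => F t z) (fun t => G t z) s
  · simp

theorem DC_add (F G : Fn V k) : DC o P (F + G) = DC o P F + DC o P G := by
  funext s z
  simp only [DC, Pi.add_apply]
  split_ifs
  · exact cobd_add (F s) (G s) z
  · simp

theorem DB_neg (F : Fn V k) : DB o P (-F) = - DB o P F := by
  funext s z
  simp only [DB, Pi.neg_apply]
  split_ifs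
  · exact bd_neg (fun t => F t z) s
  · simp

theorem DC_neg (F : Fn V k) : DC o P (-F) = - DC o P F := by
  funext s z
  simp only [DC, Pi.neg_apply]
  split_ifs
  · exact cobd_neg (F s) z
  · simp

theorem DB_sub (F G : Fn V k) : DB o P (F - G) = DB o P F - DB o P G := by
  rw [sub_eq_add_neg, DB_add, DB_neg, ← sub_eq_add_neg]

theorem DC_sub (F G : Fn V k) : DC o P (F - G) = DC o P F - DC o P G := by
  rw [sub_eq_add_neg, DC_add, DC_neg, ← sub_eq_add_neg]

theorem Supp.add {F G : Fn V k} (hF : Supp P F) (hG : Supp P G) : Supp P (F + G) :=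
  fun s z h => by simp [hF s z h, hG s z h]

theorem Supp.sub {F G : Fn V k} (hF : Supp P F) (hG : Supp P G) : Supp P (F - G) :=
  fun s z h => by simp [hF s z h, hG s z h]

theorem DB_DB (ho : Function.Injective o) (hP : Adm P) {F : Fn V k} (hF : Supp P F) :
    DB o P (DB o P F) = 0 := by
  funext s z
  rw [DB]
  split_ifs with hs
  · rw [bd]
    have e : ∀ v, (if v ∈ s then 0 else sg k o s v * DB o P F (insert v s) z) =
        ∑ w, if v ∉ s ∧ w ∉ s ∧ v ≠ w then
          sg k o s v * sg k o (insert v s) w * F (insert w (insert v s)) z else 0 := by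
      intro v
      split_ifs with hv
      · symm
        exact Finset.sum_eq_zero fun w _ => if_neg (fun h => h.1 hv)
      · by_cases hPv : P (insert v s) z
        · rw [DB, if_pos hPv, bd, Finset.mul_sum]
          refine Finset.sum_congr rfl fun w _ => ?_
          by_cases hw : w ∈ insert v s
          · rw [if_pos hw, if_neg, mul_zero]
            rintro ⟨_, h1, h2⟩
            rcases Finset.mem_insert.1 hw with h | h
            · exact h2 h.symm
            · exact h1 h
          · rw [if_neg hw, if_pos, mul_assoc]
            refine ⟨hv, fun h => hw (Finset.mem_insert_of_mem h), ?_⟩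
            rintro rfl; exact hw (Finset.mem_insert_self _ _)
        · rw [DB_supp F _ _ hPv, mul_zero]
          symm
          refine Finset.sum_eq_zero fun w _ => ?_
          split_ifs with hw
          · rw [hF, mul_zero]
            intro h
            exact hPv (hP.conv _ _ _ _ hs (Finset.subset_insert v s)
              (Finset.subset_insert w _) h)
          · rfl
    rw [Finset.sum_congr rfl fun v _ => e v, ← Finset.sum_product']
    refine Finset.sum_involution (fun x _ => (x.2, x.1)) ?_ ?_ ?_ ?_
    · rintro ⟨v, w⟩ _
      simp only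
      by_cases h : v ∉ s ∧ w ∉ s ∧ v ≠ w
      · rw [if_pos h, if_pos ⟨h.2.1, h.1, h.2.2.symm⟩, Finset.insert_comm v w, ← add_mul,
          sg_swap ho h.1 h.2.1 h.2.2, zero_mul]
      · rw [if_neg h, if_neg, add_zero]
        rintro ⟨h1, h2, h3⟩
        exact h ⟨h2, h1, h3.symm⟩
    · rintro ⟨v, w⟩ _ hne heq
      apply hne
      have : w = v := congrArg Prod.fst heq
      subst this
      simp
    · rintro ⟨v, w⟩ _; simp
    · rintro ⟨v, w⟩ _; rfl
  · rfl

theorem DC_DC (ho : Function.Injective o) (hP : Adm P) {F : Fn V k} :
    DC o P (DC o P F) = 0 := by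
  funext s z
  rw [DC]
  split_ifs with hs
  · rw [cobd]
    have e : ∀ v, (if v ∈ z then sg k o (z.erase v) v * DC o P F s (z.erase v) else 0) =
        ∑ w, if v ∈ z ∧ w ∈ z ∧ v ≠ w then
          sg k o (z.erase v) v * sg k o ((z.erase v).erase w) w * F s ((z.erase v).erase w)
            else 0 := by
      intro v
      split_ifs with hv
      · rw [DC, if_pos (hP.down _ _ _ hs (Finset.erase_subset v z)), cobd, Finset.mul_sum]
        refine Finset.sum_congr rfl fun w _ => ?_
        by_cases hw : w ∈ z.erase v
        · obtain ⟨h1, h2⟩ := Finset.mem_erase.1 hw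
          rw [if_pos hw, if_pos ⟨hv, h2, h1.symm⟩, mul_assoc]
        · rw [if_neg hw, if_neg, mul_zero]
          rintro ⟨_, h1, h2⟩
          exact hw (Finset.mem_erase.2 ⟨h2.symm, h1⟩)
      · simp [hv]
    rw [Finset.sum_congr rfl fun v _ => e v, ← Finset.sum_product']
    refine Finset.sum_involution (fun x _ => (x.2, x.1)) ?_ ?_ ?_ ?_
    · rintro ⟨v, w⟩ _
      simp only
      by_cases h : v ∈ z ∧ w ∈ z ∧ v ≠ w
      · rw [if_pos h, if_pos ⟨h.2.1, h.1, h.2.2.symm⟩]
        obtain ⟨hv, hw, hvw⟩ := h
        have h1 : v ∉ (z.erase v).erase w := by simp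
        have h2 : w ∉ (z.erase v).erase w := by simp
        have h3 : z.erase v = insert w ((z.erase v).erase w) := by
          rw [Finset.insert_erase (Finset.mem_erase.2 ⟨hvw.symm, hw⟩)]
        have h4 : z.erase w = insert v ((z.erase v).erase w) := by
          rw [Finset.erase_right_comm, Finset.insert_erase (Finset.mem_erase.2 ⟨hvw, hv⟩)]
        have h5 : (z.erase w).erase v = (z.erase v).erase w := Finset.erase_right_comm
        rw [h5, ← add_mul]
        have h6 := sg_swap (k := k) ho h1 h2 hvw
        rw [← h3, ← h4] at h6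
        have h7 : sg k o (z.erase v) v * sg k o ((z.erase v).erase w) w +
          sg k o (z.erase w) w * sg k o ((z.erase v).erase w) v = 0 := by
          have h8 : (sg k o ((z.erase v).erase w) v * sg k o (z.erase w) w +
            sg k o ((z.erase v).erase w) w * sg k o (z.erase v) v) = 0 := h6
          rw [← h8]; ring
        rw [h7, zero_mul]
      · rw [if_neg h, if_neg, add_zero]
        rintro ⟨h1, h2, h3⟩
        exact h ⟨h2, h1, h3.symm⟩
    · rintro ⟨v, w⟩ _ hne heq
      apply hne
      have : w = v := congrArg Prod.fst heq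
      subst this
      simp
    · rintro ⟨v, w⟩ _; simp
    · rintro ⟨v, w⟩ _; rfl
  · rfl

theorem DB_DC (hP : Adm P) {F : Fn V k} (hF : Supp P F) :
    DB o P (DC o P F) = DC o P (DB o P F) := by
  funext s z
  rw [DB, DC]
  split_ifs with hs
  · rw [bd, cobd]
    have e1 : ∀ v, (if v ∈ s then 0 else sg k o s v * DC o P F (insert v s) z) =
        ∑ x, if v ∉ s ∧ x ∈ z then
          sg k o s v * (sg k o (z.erase x) x * F (insert v s) (z.erase x)) else 0 := by
      intro v
      split_ifs with hv
      · symm
        exact Finset.sum_eq_zero fun w _ => if_neg (fun h => h.1 hv)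
      · by_cases hPv : P (insert v s) z
        · rw [DC, if_pos hPv, cobd, Finset.mul_sum]
          refine Finset.sum_congr rfl fun x _ => ?_
          by_cases hx : x ∈ z
          · rw [if_pos hx, if_pos ⟨hv, hx⟩]
          · rw [if_neg hx, if_neg (fun h => hx h.2), mul_zero]
        · rw [DC_supp F _ _ hPv, mul_zero]
          symm
          refine Finset.sum_eq_zero fun x _ => ?_
          split_ifs with hx
          · rw [hF (insert v s), mul_zero, mul_zero]
            intro h
            exact hPv (hP.mono _ _ _ hs (Finset.subset_insert v s)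
              (hP.down _ _ _ h (Finset.empty_subset _)))
          · rfl
    have e2 : ∀ x, (if x ∈ z then sg k o (z.erase x) x * DB o P F s (z.erase x) else 0) =
        ∑ v, if v ∉ s ∧ x ∈ z then
          sg k o s v * (sg k o (z.erase x) x * F (insert v s) (z.erase x)) else 0 := by
      intro x
      split_ifs with hx
      · rw [DB, if_pos (hP.down _ _ _ hs (Finset.erase_subset x z)), bd, Finset.mul_sum]
        refine Finset.sum_congr rfl fun v _ => ?_
        by_cases hv : v ∈ s
        · rw [if_pos hv, if_neg (fun h => h.1 hv), mul_zero]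
        · rw [if_neg hv, if_pos ⟨hv, hx⟩]; ring
      · simp [hx]
    rw [Finset.sum_congr rfl fun v _ => e1 v, Finset.sum_congr rfl fun v _ => e2 v,
      Finset.sum_comm]
  · rfl

/-- cone operator in the first variable -/
def hB (o : V → ℕ) (c : Finset V → V) (F : Fn V k) : Fn V k :=
  fun s z => if z.Nonempty ∧ c z ∈ s then sg k o (s.erase (c z)) (c z) * F (s.erase (c z)) z
    else 0

/-- column exactness -/
theorem col_exact (ho : Function.Injective o) {c : Finset V → V}
    (hc : ∀ s z, P s z → z.Nonempty → P (insert (c z) s) z ∧ P (s.erase (c z)) z)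
    {F : Fn V k} (hF : Supp P F) (h0 : ∀ s, F s ∅ = 0) :
    Supp P (hB o c F) ∧ DB o P (hB o c F) + hB o c (DB o P F) = F := by
  have hsupp : Supp P (hB o c F) := by
    intro s z h
    rw [hB]
    split_ifs with h1
    · rw [hF, mul_zero]
      intro h2
      apply h
      have := (hc _ _ h2 h1.1).1
      rwa [Finset.insert_erase h1.2] at this
    · rfl
  refine ⟨hsupp, ?_⟩
  funext s z
  rw [Pi.add_apply, Pi.add_apply]
  rcases z.eq_empty_or_nonempty with rfl | hz
  · have h1 : ∀ t, hB o c F t ∅ = 0 := fun t => by rw [hB, if_neg (fun h => by simp at h)]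
    have h2 : hB o c (DB o P F) s ∅ = 0 := by rw [hB, if_neg (fun h => by simp at h)]
    rw [h2, h0, add_zero, DB]
    split_ifs
    · rw [bd]
      refine Finset.sum_eq_zero fun v _ => ?_
      rw [h1]; simp
    · rfl
  · by_cases hP : P s z
    · rw [DB, if_pos hP, bd]
      by_cases hcs : c z ∈ s
      · have hne : (s.erase (c z)) ∪ {c z} = s := by
          rw [Finset.union_comm]; exact Finset.insert_erase hcs
        have h1 : hB o c (DB o P F) s z = sg k o (s.erase (c z)) (c z) *
            DB o P F (s.erase (c z)) z := by rw [hB, if_pos ⟨hz, hcs⟩]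
        rw [h1, DB, if_pos (hc _ _ hP hz).2, bd, Finset.mul_sum, ← Finset.sum_add_distrib,
          Finset.sum_eq_single (c z)]
        · rw [if_pos hcs, if_neg (Finset.notMem_erase _ _), Finset.insert_erase hcs, zero_add,
            ← mul_assoc, sg_mul_self, one_mul]
        · intro v _ hv
          by_cases hvs : v ∈ s
          · rw [if_pos hvs, if_pos (Finset.mem_erase.2 ⟨hv, hvs⟩), mul_zero, add_zero]
          · rw [if_neg hvs, if_neg (fun h => hvs (Finset.mem_of_mem_erase h)), hB,
              if_pos ⟨hz, Finset.mem_insert_of_mem hcs⟩,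
              Finset.erase_insert_of_ne hv]
            have h2 := sg_swap' (k := k) ho (T := s.erase (c z)) (v := c z) (w := v)
              (Finset.notMem_erase _ _) (fun h => hvs (Finset.mem_of_mem_erase h)) hv.symm
            rw [Finset.insert_erase hcs] at h2
            rw [← mul_assoc, ← mul_assoc, ← add_mul, h2, zero_mul]
        · intro h; exact absurd (Finset.mem_univ _) h
      · have h1 : hB o c (DB o P F) s z = 0 := by rw [hB, if_neg (fun h => hcs h.2)]
        rw [h1, add_zero, Finset.sum_eq_single (c z)]
        · rw [if_neg hcs, hB, if_pos ⟨hz, Finset.mem_insert_self _ _⟩,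
            Finset.erase_insert hcs, ← mul_assoc, sg_mul_self, one_mul]
        · intro v _ hv
          by_cases hvs : v ∈ s
          · rw [if_pos hvs]
          · rw [if_neg hvs, hB, if_neg, mul_zero]
            rintro ⟨_, h⟩
            rcases Finset.mem_insert.1 h with h | h
            · exact hv h.symm
            · exact hcs h
        · intro h; exact absurd (Finset.mem_univ _) h
    · rw [DB_supp (o := o) (P := P) (hB o c F) _ _ hP, hF _ _ hP, hB]
      split_ifs with h
      · rw [DB_supp (o := o) (P := P) F, mul_zero, add_zero]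
        intro h2
        apply hP
        have := (hc _ _ h2 h.1).1
        rwa [Finset.insert_erase h.2] at this
      · simp

/-- contraction in the second variable -/
def hC (o : V → ℕ) (x : Finset V → V) (F : Fn V k) : Fn V k :=
  fun s z => if x s ∈ z then 0 else sg k o z (x s) * F s (insert (x s) z)

/-- row exactness -/
theorem row_exact (ho : Function.Injective o) {x : Finset V → V}
    (hx : ∀ s z, P s z → P s (insert (x s) z) ∧ P s (z.erase (x s)))
    {F : Fn V k} (hF : Supp P F) :
    Supp P (hC o x F) ∧ DC o P (hC o x F) + hC o x (DC o P F) = F := by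
  have hsupp : Supp P (hC o x F) := by
    intro s z h
    rw [hC]
    split_ifs with h1
    · rfl
    · rw [hF, mul_zero]
      intro h2
      apply h
      have := (hx _ _ h2).2
      rwa [Finset.erase_insert h1] at this
  refine ⟨hsupp, ?_⟩
  funext s z
  rw [Pi.add_apply, Pi.add_apply]
  by_cases hP : P s z
  · rw [DC, if_pos hP, cobd]
    by_cases hxz : x s ∈ z
    · have h1 : hC o x (DC o P F) s z = 0 := by rw [hC, if_pos hxz]
      rw [h1, add_zero, Finset.sum_eq_single (x s)]
      · rw [if_pos hxz, hC, if_neg (Finset.notMem_erase _ _), Finset.insert_erase hxz,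
          ← mul_assoc, sg_mul_self, one_mul]
      · intro v _ hv
        by_cases hvz : v ∈ z
        · rw [if_pos hvz, hC, if_pos (Finset.mem_erase.2 ⟨hv.symm, hxz⟩), mul_zero]
        · rw [if_neg hvz]
      · intro h; exact absurd (Finset.mem_univ _) h
    · have h1 : hC o x (DC o P F) s z = sg k o z (x s) * DC o P F s (insert (x s) z) := by
        rw [hC, if_neg hxz]
      rw [h1, DC, if_pos (hx _ _ hP).1, cobd, Finset.mul_sum, ← Finset.sum_add_distrib,
        Finset.sum_eq_single (x s)]
      · rw [if_neg hxz, if_pos (Finset.mem_insert_self _ _), Finset.erase_insert hxz, zero_add,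
          ← mul_assoc, sg_mul_self, one_mul]
      · intro v _ hv
        by_cases hvz : v ∈ z
        · rw [if_pos hvz, if_pos (Finset.mem_insert_of_mem hvz), hC,
            if_neg (fun h => hxz (Finset.mem_of_mem_erase h)),
            Finset.erase_insert_of_ne hv.symm]
          have h2 := sg_swap (k := k) ho (T := z.erase v) (v := v) (w := x s)
              (Finset.notMem_erase _ _) (fun h => hxz (Finset.mem_of_mem_erase h)) hv
          rw [Finset.insert_erase hvz] at h2
          rw [← mul_assoc, ← mul_assoc, ← add_mul]
          have h3 : sg k o (z.erase v) v * sg k o (z.erase v) (x s) +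
            sg k o z (x s) * sg k o (insert (x s) (z.erase v)) v = 0 := by
            have h4 := sg_swap' (k := k) ho (T := z.erase v) (v := v) (w := x s)
              (Finset.notMem_erase _ _) (fun h => hxz (Finset.mem_of_mem_erase h)) hv
            rw [Finset.insert_erase hvz] at h4
            rw [← h4]; ring
          rw [h3, zero_mul]
        · rw [if_neg hvz, if_neg, mul_zero, add_zero]
          intro h
          rcases Finset.mem_insert.1 h with h | h
          · exact hv h
          · exact hvz h
      · intro h; exact absurd (Finset.mem_univ _) h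
  · rw [DC_supp (o := o) (P := P) (hC o x F) _ _ hP, hF _ _ hP, hC]
    split_ifs with h
    · simp
    · rw [DC_supp (o := o) (P := P) F, mul_zero, add_zero]
      intro h2
      apply hP
      have := (hx _ _ h2).2
      rwa [Finset.erase_insert h] at this

theorem DC_empty (F : Fn V k) (s : Finset V) : DC o P F s ∅ = 0 := by
  rw [DC]
  split_ifs
  · rw [cobd]; simp
  · rfl

/-- The abstract acyclicity criterion. -/
theorem acyclic (ho : Function.Injective o) {P Q : Finset V → Finset V → Prop}
    (hP : Adm P) (hQ : Adm Q) (hQP : ∀ s z, Q s z → P s z)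
    (hP0 : ∀ s, P s ∅ → Q s ∅)
    {c : Finset V → V}
    (hc : ∀ s z, P s z → z.Nonempty → P (insert (c z) s) z ∧ P (s.erase (c z)) z)
    {x : Finset V → V}
    (hx : ∀ s z, Q s z → Q s (insert (x s) z) ∧ Q s (z.erase (x s)))
    (f : Finset V → k) (hf : ∀ s, ¬ P s ∅ → f s = 0)
    (hcyc : ∀ s, P s ∅ → bd o f s = 0) :
    ∃ g : Finset V → k, (∀ s, ¬ P s ∅ → g s = 0) ∧ ∀ s, P s ∅ → bd o g s = f s := by
  classical
  let b0 : Fn V k := fun s z => if z = ∅ then f s else 0
  have hb0 : Supp P b0 := by
    intro s z h
    simp only [b0]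
    split_ifs with hz
    · subst hz; exact hf s h
    · rfl
  have hDb0 : DB o P b0 = 0 := by
    funext s z
    rw [DB]
    split_ifs with h
    · by_cases hz : z = ∅
      · subst hz
        have : (fun t => b0 t ∅) = f := by funext t; simp [b0]
        rw [this]; exact hcyc s h
      · have : (fun t => b0 t z) = fun _ => 0 := by funext t; simp [b0, hz]
        rw [this, bd]; simp
    · rfl
  let b : ℕ → Fn V k := fun l => Nat.rec b0 (fun _ F => hB o c (DC o P F)) l
  have hb_succ : ∀ l, b (l + 1) = hB o c (DC o P (b l)) := fun l => rfl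
  have hbs : ∀ l, Supp P (b l) := by
    intro l
    cases l with
    | zero => exact hb0
    | succ l => exact (col_exact ho hc (DC_supp (b l)) (DC_empty (b l))).1
  have hbD : ∀ l, DB o P (b (l + 1)) = DC o P (b l) := by
    intro l
    induction l with
    | zero =>
      have h := (col_exact ho hc (DC_supp (o := o) (P := P) (b 0)) (DC_empty (b 0))).2
      rw [DB_DC hP (hbs 0)] at h
      have h2 : DB o P (b 0) = 0 := hDb0
      have h3 : DC o P (0 : Fn V k) = 0 := by
        have := DC_sub (o := o) (P := P) (b 0) (b 0)
        simpa using this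
      have h4 : hB o c (0 : Fn V k) = 0 := by
        funext s z; rw [hB]; split_ifs <;> simp
      rw [h2, h3, h4, add_zero] at h
      exact h
    | succ l ih =>
      have h := (col_exact ho hc (DC_supp (o := o) (P := P) (b (l + 1)))
        (DC_empty (b (l + 1)))).2
      rw [DB_DC hP (hbs (l + 1)), ih, DC_DC ho hP] at h
      have h4 : hB o c (0 : Fn V k) = 0 := by
        funext s z; rw [hB]; split_ifs <;> simp
      rw [h4, add_zero] at h
      exact h
  have hbcard : ∀ l s z, z.card ≠ l → b l s z = 0 := by
    intro l
    induction l with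
    | zero =>
      intro s z hz
      have : z ≠ ∅ := by rintro rfl; simp at hz
      change b0 s z = 0
      simp only [b0, if_neg this]
    | succ l ih =>
      intro s z hz
      rw [hb_succ, hB]
      split_ifs with h
      · have : DC o P (b l) (s.erase (c z)) z = 0 := by
          rw [DC]
          split_ifs
          · rw [cobd]
            refine Finset.sum_eq_zero fun v _ => ?_
            split_ifs with hv
            · rw [ih _ _ (by rw [Finset.card_erase_of_mem hv]; have := Finset.card_pos.2 ⟨v, hv⟩; omega),
                mul_zero]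
            · rfl
          · rfl
        rw [this, mul_zero]
      · rfl
  -- restriction to `Q`
  let res : Fn V k → Fn V k := fun F s z => if Q s z then F s z else 0
  have hres : ∀ F, Supp Q (res F) := fun F s z h => if_neg h
  have hresB : ∀ F, Supp P F → DB o Q (res F) = res (DB o P F) := by
    intro F hF
    funext s z
    simp only [DB, res]
    by_cases hq : Q s z
    · rw [if_pos hq, if_pos hq, if_pos (hQP s z hq), bd, bd]
      refine Finset.sum_congr rfl fun v _ => ?_
      split_ifs with h1 h2
      · rfl
      · rfl
      · rw [hF]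
        intro h3
        exact h2 (hQ.mono _ _ _ hq (Finset.subset_insert v s)
          (hP0 _ (hP.down _ _ _ h3 (Finset.empty_subset _))))
    · rw [if_neg hq, if_neg hq]
  have hresC : ∀ F, DC o Q (res F) = res (DC o P F) := by
    intro F
    funext s z
    simp only [DC, res]
    by_cases hq : Q s z
    · rw [if_pos hq, if_pos hq, if_pos (hQP s z hq), cobd, cobd]
      refine Finset.sum_congr rfl fun v _ => ?_
      split_ifs with h1 h2
      · rfl
      · exact absurd (hQ.down _ _ _ hq (Finset.erase_subset v z)) h2
      · rfl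
    · rw [if_neg hq, if_neg hq]
  have hclosed : ∀ F : Fn V k, Supp Q F → DC o Q F = 0 → ∃ G, Supp Q G ∧ DC o Q G = F := by
    intro F hF h0
    have h := row_exact ho hx hF
    refine ⟨_, h.1, ?_⟩
    have h4 : hC o x (0 : Fn V k) = 0 := by
      funext s z; rw [hC]; split_ifs <;> simp
    have h5 := h.2
    rw [h0, h4, add_zero] at h5
    exact h5
  -- downward step
  have step : ∀ l, (∃ a' a, Supp Q a' ∧ Supp Q a ∧ res (b (l + 1)) = DB o Q a' + DC o Q a) →
      ∃ a a'', Supp Q a ∧ Supp Q a'' ∧ res (b l) = DB o Q a + DC o Q a'' := by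
    rintro l ⟨a', a, ha', ha, h⟩
    have h1 : DC o Q (res (b l) - DB o Q a) = 0 := by
      rw [DC_sub, hresC, ← hbD, ← hresB _ (hbs (l + 1)), h, DB_add, DB_DB ho hQ ha',
        DB_DC hQ ha, zero_add, sub_self]
    obtain ⟨a'', ha'', h2⟩ := hclosed _ ((hres (b l)).sub (DB_supp a)) h1
    refine ⟨a, a'', ha, ha'', ?_⟩
    rw [h2]; abel
  have all : ∀ j l, l + j = Fintype.card V + 1 →
      ∃ a a'', Supp Q a ∧ Supp Q a'' ∧ res (b l) = DB o Q a + DC o Q a'' := by
    intro j
    induction j with
    | zero =>
      intro l hl
      have hz : ∀ s z, b l s z = 0 := by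
        intro s z
        refine hbcard l s z ?_
        have := Finset.card_le_univ z
        omega
      have h0B : DB o Q (0 : Fn V k) = 0 := by
        have := DB_sub (o := o) (P := Q) (0 : Fn V k) 0
        simpa using this
      have h0C : DC o Q (0 : Fn V k) = 0 := by
        have := DC_sub (o := o) (P := Q) (0 : Fn V k) 0
        simpa using this
      refine ⟨0, 0, fun s z _ => rfl, fun s z _ => rfl, ?_⟩
      rw [h0B, h0C, add_zero]
      funext s z
      simp only [res, hz]
      split_ifs <;> rfl
    | succ j ih =>
      intro l hl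
      exact step l (ih (l + 1) (by omega))
  obtain ⟨a, a'', ha, ha'', h⟩ := all (Fintype.card V + 1) 0 (by omega)
  refine ⟨fun s => a s ∅, fun s hs => ha s ∅ (fun h => hs (hQP _ _ h)), fun s hs => ?_⟩
  have h1 := congrFun (congrFun h s) ∅
  rw [Pi.add_apply, Pi.add_apply, DC_empty, add_zero, DB, if_pos (hP0 s hs)] at h1
  rw [← h1]
  have h2 : res (b 0) s ∅ = b0 s ∅ := if_pos (hP0 s hs)
  rw [h2]
  simp [b0]

end Pool.Agent.V11212.HC
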