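import Pool.Agent.V11212.HC.Dbl

/-!
Petals in Vietoris-Rips complexes of hypercubes, and acyclicity of the late columns.
-/

namespace Pool.Agent.V11212.HC

open Finset

variable {n : ℕ}

/-- binary words -/
abbrev Wd (n : ℕ) : Type := Fin n → Bool

/-- the set of coordinates where two words differ -/
def df (x y : Wd n) : Finset (Fin n) := univ.filter (fun j => x j ≠ y j)

theorem mem_df {x y : Wd n} {j : Fin n} : j ∈ df x y ↔ x j ≠ y j := by simp [df]

theorem df_comm (x y : Wd n) : df x y = df y x := by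
  ext j; rw [mem_df, mem_df]; exact ne_comm

theorem df_self (x : Wd n) : df x x = ∅ := by ext j; simp [mem_df]

theorem df_pos {x y : Wd n} (h : x ≠ y) : 0 < (df x y).card := by
  rw [Finset.card_pos]
  obtain ⟨j, hj⟩ := Function.ne_iff.1 h
  exact ⟨j, mem_df.2 hj⟩

theorem df_union_of_disjoint {x y z : Wd n} (h : Disjoint (df x y) (df y z)) :
    df x z = df x y ∪ df y z := by
  ext j
  rw [Finset.disjoint_left] at h
  have h' := @h j
  rw [mem_df, mem_df] at h'
  rw [Finset.mem_union, mem_df, mem_df, mem_df]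
  revert h'
  generalize x j = a
  generalize y j = b
  generalize z j = c
  revert a b c
  decide

theorem df_card (y z w : Wd n) :
    (df y w).card + 2 * (df y z ∩ df z w).card = (df y z).card + (df z w).card := by
  have e : df y z ∩ df z w = univ.filter (fun j => y j ≠ z j ∧ z j ≠ w j) := by
    ext j; simp [mem_df]
  rw [e]
  simp only [df, Finset.card_filter]
  rw [Finset.mul_sum, ← Finset.sum_add_distrib, ← Finset.sum_add_distrib]
  refine Finset.sum_congr rfl fun j _ => ?_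
  rcases y j with _ | _ <;> rcases z j with _ | _ <;> rcases w j with _ | _ <;> simp

/-- cliques -/
def Clq (r : ℕ) (s : Finset (Wd n)) : Prop := ∀ x ∈ s, ∀ y ∈ s, (df x y).card ≤ r

/-- the non constant coordinates -/
def spn (s : Finset (Wd n)) : Finset (Fin n) := univ.filter (fun j => ∃ x ∈ s, ∃ y ∈ s, x j ≠ y j)

theorem mem_spn {s : Finset (Wd n)} {j : Fin n} : j ∈ spn s ↔ ∃ x ∈ s, ∃ y ∈ s, x j ≠ y j := by
  simp [spn]

theorem spn_mono {s t : Finset (Wd n)} (h : s ⊆ t) : spn s ⊆ spn t := by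
  intro j hj
  rw [mem_spn] at *
  obtain ⟨x, hx, y, hy, hxy⟩ := hj
  exact ⟨x, h hx, y, h hy, hxy⟩

/-- pairwise disjoint difference sets -/
def PD (z : Wd n) (W : Finset (Wd n)) : Prop :=
  ∀ w ∈ W, ∀ w' ∈ W, w ≠ w' → Disjoint (df z w) (df z w')

/-- at least `M` disjoint petals of size exactly `ρ` -/
def Pet (M ρ : ℕ) (z : Wd n) (s : Finset (Wd n)) : Prop :=
  ∃ W ⊆ s, M ≤ W.card ∧ (∀ w ∈ W, (df z w).card = ρ) ∧ PD z W

/-- at least `m` disjoint nonempty petals -/
def Pet' (m : ℕ) (z : Wd n) (s : Finset (Wd n)) : Prop :=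
  ∃ W ⊆ s, m ≤ W.card ∧ (∀ w ∈ W, z ≠ w) ∧ PD z W

theorem Pet'.mono {m : ℕ} {z : Wd n} {s t : Finset (Wd n)} (h : Pet' m z s) (hst : s ⊆ t) :
    Pet' m z t := by
  obtain ⟨W, hW, h⟩ := h
  exact ⟨W, hW.trans hst, h⟩

theorem Pet.mono {M ρ : ℕ} {z : Wd n} {s t : Finset (Wd n)} (h : Pet M ρ z s) (hst : s ⊆ t) :
    Pet M ρ z t := by
  obtain ⟨W, hW, h⟩ := h
  exact ⟨W, hW.trans hst, h⟩

theorem Pet.le {M M' ρ : ℕ} {z : Wd n} {s : Finset (Wd n)} (h : Pet M ρ z s) (hM : M' ≤ M) :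
    Pet M' ρ z s := by
  obtain ⟨W, hW, h1, h2⟩ := h
  exact ⟨W, hW, hM.trans h1, h2⟩

theorem PD.mono {z : Wd n} {W W' : Finset (Wd n)} (h : PD z W) (hW : W' ⊆ W) : PD z W' :=
  fun w hw w' hw' => h w (hW hw) w' (hW hw')

/-- A vertex with many petals is adjacent to everything adjacent to the petals. -/
theorem adj_of_pet {m r : ℕ} (hm : r + 2 ≤ m) {z y : Wd n} {s : Finset (Wd n)}
    (h : Pet' m z s) (hy : ∀ w ∈ s, (df y w).card ≤ r) : (df y z).card ≤ r := by
  obtain ⟨W, hW, hcard, hne, hPD⟩ := h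
  by_contra hcon
  push Not at hcon
  have h1 : ∀ w ∈ W, (df y z).card + 1 - r ≤ 2 * (df y z ∩ df z w).card := by
    intro w hw
    have h1 := df_card y z w
    have h2 := hy w (hW hw)
    have h3 := df_pos (hne w hw)
    omega
  have h2 : ∑ w ∈ W, (df y z ∩ df z w).card ≤ (df y z).card := by
    rw [← Finset.card_biUnion]
    · refine Finset.card_le_card ?_
      intro j hj
      obtain ⟨w, _, hw⟩ := Finset.mem_biUnion.1 hj
      exact (Finset.mem_inter.1 hw).1
    · intro w hw w' hw' hww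
      exact (hPD w hw w' hw' hww).mono Finset.inter_subset_right Finset.inter_subset_right
  have h3 : W.card * ((df y z).card + 1 - r) ≤ 2 * (df y z).card := by
    calc W.card * ((df y z).card + 1 - r) = ∑ w ∈ W, ((df y z).card + 1 - r) := by simp
      _ ≤ ∑ w ∈ W, 2 * (df y z ∩ df z w).card := Finset.sum_le_sum h1
      _ = 2 * ∑ w ∈ W, (df y z ∩ df z w).card := by rw [Finset.mul_sum]
      _ ≤ _ := Nat.mul_le_mul_left 2 h2
  obtain ⟨t, ht⟩ : ∃ t, (df y z).card = r + 1 + t := ⟨(df y z).card - (r + 1), by omega⟩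
  rw [ht] at h3
  have h4 : r + 1 + t + 1 - r = t + 2 := by omega
  rw [h4] at h3
  have h5 : (r + 2) * (t + 2) ≤ W.card * (t + 2) := Nat.mul_le_mul_right _ (hm.trans hcard)
  nlinarith

/-- A vertex with two petals does not influence the span. -/
theorem spn_of_pet {m : ℕ} (hm : 2 ≤ m) {z : Wd n} {b s : Finset (Wd n)}
    (h : Pet' m z b) (hb : b ⊆ s) : spn (insert z s) = spn (s.erase z) := by
  obtain ⟨W, hW, hcard, hne, hPD⟩ := h
  refine Finset.Subset.antisymm ?_ (spn_mono ((Finset.erase_subset z s).trans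
    (Finset.subset_insert z s)))
  obtain ⟨w, hw, w', hw', hww⟩ := Finset.one_lt_card.1 (show 1 < W.card by omega)
  have key : ∀ j, ∃ u ∈ s.erase z, u j = z j := by
    intro j
    by_cases h1 : j ∈ df z w
    · have h2 := Finset.disjoint_left.1 (hPD w hw w' hw' hww) h1
      exact ⟨w', Finset.mem_erase.2 ⟨(hne w' hw').symm, hb (hW hw')⟩,
        by rw [mem_df] at h2; push Not at h2; exact h2.symm⟩
    · exact ⟨w, Finset.mem_erase.2 ⟨(hne w hw).symm, hb (hW hw)⟩,
        by rw [mem_df] at h1; push Not at h1; exact h1.symm⟩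
  intro j hj
  rw [mem_spn] at *
  obtain ⟨x, hx, y, hy, hxy⟩ := hj
  have key2 : ∀ x ∈ insert z s, ∃ u ∈ s.erase z, u j = x j := by
    intro x hx
    by_cases hxz : x = z
    · subst hxz; exact key j
    · refine ⟨x, Finset.mem_erase.2 ⟨hxz, ?_⟩, rfl⟩
      rcases Finset.mem_insert.1 hx with h | h
      · exact absurd h hxz
      · exact h
  obtain ⟨u, hu, hux⟩ := key2 x hx
  obtain ⟨v, hv, hvy⟩ := key2 y hy
  exact ⟨u, hu, v, hv, by rw [hux, hvy]; exact hxy⟩

/-! ### thresholds -/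

/-- thresholds -/
def Mf (r ρ : ℕ) : ℕ := (r + 2) * (2 * r + 1) ^ (r + 1 - ρ)

theorem Mf_ge (r ρ : ℕ) : r + 2 ≤ Mf r ρ := Nat.le_mul_of_pos_right _ (by positivity)

theorem Mf_anti {r ρ ρ' : ℕ} (h : ρ ≤ ρ') : Mf r ρ' ≤ Mf r ρ :=
  Nat.mul_le_mul_left _ (Nat.pow_le_pow_right (by omega) (by omega))

theorem Mf_succ {r ρ : ℕ} (h : ρ ≤ r) : Mf r ρ = (2 * r + 1) * Mf r (ρ + 1) := by
  rw [Mf, Mf, show r + 1 - ρ = (r + 1 - (ρ + 1)) + 1 by omega, pow_succ]
  ring

/-- the special vertices of a simplex -/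
def Zs (r : ℕ) (s : Finset (Wd n)) (z : Wd n) : Prop := ∃ ρ, 1 ≤ ρ ∧ Pet (Mf r ρ) ρ z s

theorem Zs.mono {r : ℕ} {s t : Finset (Wd n)} {z : Wd n} (h : Zs r s z) (hst : s ⊆ t) :
    Zs r t z := by
  obtain ⟨ρ, h1, h2⟩ := h
  exact ⟨ρ, h1, h2.mono hst⟩

theorem pet'_of_pet {M ρ m : ℕ} {z : Wd n} {s : Finset (Wd n)} (h : Pet M ρ z s) (hρ : 1 ≤ ρ)
    (hm : m ≤ M) : Pet' m z s := by
  obtain ⟨W, hW, h1, h2, h3⟩ := h
  refine ⟨W, hW, hm.trans h1, fun w hw hzw => ?_, h3⟩
  have := h2 w hw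
  rw [← hzw, df_self] at this
  simp at this
  omega

/-- hitting lemma -/
theorem hit {α : Type} [DecidableEq α] (Q : Finset α) (D : α → Finset (Fin n))
    (A : Finset (Fin n)) (hD : ∀ q ∈ Q, ∀ q' ∈ Q, q ≠ q' → Disjoint (D q) (D q'))
    (hc : A.card < Q.card) : ∃ q ∈ Q, Disjoint (D q) A := by
  classical
  by_contra hcon
  push Not at hcon
  have h1 : ∀ q ∈ Q, ∃ j, j ∈ D q ∧ j ∈ A := by
    intro q hq
    obtain ⟨j, h1, h2⟩ := Finset.not_disjoint_iff.1 (hcon q hq)
    exact ⟨j, h1, h2⟩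
  let f : α → Fin n := fun q => if h : ∃ j, j ∈ D q ∧ j ∈ A then h.choose else
    (h1 _ (Finset.card_pos.1 (by omega : 0 < Q.card)).choose_spec).choose
  have hf : ∀ q ∈ Q, f q ∈ D q ∧ f q ∈ A := by
    intro q hq
    have h2 := h1 q hq
    simp only [f, dif_pos h2]
    exact h2.choose_spec
  obtain ⟨q, hq, q', hq', hne, he⟩ := Finset.exists_ne_map_eq_of_card_lt_of_maps_to hc
    (f := f) (fun q hq => (hf q hq).2)
  exact Finset.disjoint_left.1 (hD q hq q' hq' hne) (hf q hq).1 (he ▸ (hf q' hq').1)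

/-- greedy choice of disjoint petals -/
theorem greedy (ρ : ℕ) (A : Finset (Fin n)) (QQ : Wd n → Finset (Wd n)) (U : Finset (Wd n)) :
    ∀ K, U.card ≤ K → (∀ u ∈ U, (∀ q ∈ QQ u, (df u q).card = ρ) ∧ PD u (QQ u) ∧
      A.card + ρ * K < (QQ u).card) →
    ∃ f : Wd n → Wd n, (∀ u ∈ U, f u ∈ QQ u ∧ Disjoint (df u (f u)) A) ∧
      ∀ u ∈ U, ∀ u' ∈ U, u ≠ u' → Disjoint (df u (f u)) (df u' (f u')) := by
  classical
  induction U using Finset.induction_on with
  | empty => intro K _ _; exact ⟨id, by simp, by simp⟩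
  | insert u U hu ih =>
    intro K hK h
    rw [Finset.card_insert_of_notMem hu] at hK
    obtain ⟨f, hf1, hf2⟩ := ih K (by omega) (fun v hv => h v (Finset.mem_insert_of_mem hv))
    obtain ⟨h1, h2, h3⟩ := h u (Finset.mem_insert_self u U)
    let A' := A ∪ U.biUnion (fun v => df v (f v))
    have hA' : A'.card < (QQ u).card := by
      have h4 : (U.biUnion (fun v => df v (f v))).card ≤ ρ * K := by
        refine (Finset.card_biUnion_le).trans ?_
        calc ∑ v ∈ U, (df v (f v)).card ≤ ∑ v ∈ U, ρ := Finset.sum_le_sum fun v hv =>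
              le_of_eq ((h v (Finset.mem_insert_of_mem hv)).1 _ (hf1 v hv).1)
          _ = U.card * ρ := by simp
          _ ≤ ρ * K := by rw [mul_comm]; exact Nat.mul_le_mul_left _ (by omega)
      have h5 := Finset.card_union_le A (U.biUnion (fun v => df v (f v)))
      have h6 : A'.card ≤ A.card + (U.biUnion (fun v => df v (f v))).card := h5
      omega
    obtain ⟨q, hq, hqA⟩ := hit (QQ u) (fun q => df u q) A' h2 hA'
    refine ⟨Function.update f u q, ?_, ?_⟩
    · intro v hv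
      by_cases hvu : v = u
      · subst hvu
        rw [Function.update_self]
        exact ⟨hq, hqA.mono_right Finset.subset_union_left⟩
      · rw [Function.update_of_ne hvu]
        exact hf1 v ((Finset.mem_insert.1 hv).resolve_left hvu)
    · have aux : ∀ v ∈ U, Disjoint (df u q) (df v (f v)) := by
        intro v hv
        refine hqA.mono_right ((?_ : df v (f v) ⊆ _).trans Finset.subset_union_right)
        intro j hj
        exact Finset.mem_biUnion.2 ⟨v, hv, hj⟩
      intro v hv v' hv' hne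
      by_cases hvu : v = u
      · subst hvu
        have hv'U := (Finset.mem_insert.1 hv').resolve_left hne.symm
        rw [Function.update_self, Function.update_of_ne hne.symm]
        exact aux v' hv'U
      · have hvU := (Finset.mem_insert.1 hv).resolve_left hvu
        by_cases hv'u : v' = u
        · subst hv'u
          rw [Function.update_self, Function.update_of_ne hvu]
          exact (aux v hvU).symm
        · rw [Function.update_of_ne hvu, Function.update_of_ne hv'u]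
          exact hf2 v hvU v' ((Finset.mem_insert.1 hv').resolve_left hv'u) hne

theorem pet_size {r M ρ : ℕ} {z : Wd n} {s : Finset (Wd n)} (hs : Clq r s) (hM : r + 2 ≤ M)
    (hρ : 1 ≤ ρ) (h : Pet M ρ z s) : ∀ w ∈ s, (df z w).card ≤ r := by
  intro w hw
  rw [df_comm]
  exact adj_of_pet hM (pet'_of_pet h hρ le_rfl) (fun y hy => hs w hw y hy)

/-- special vertices keep many petals outside the special set -/
theorem Zs_petals {r : ℕ} {s : Finset (Wd n)} (hs : Clq r s) {z : Wd n} (hz : Zs r s z)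
    (t : Finset (Wd n)) (ht : ∀ w ∈ t, Zs r s w) : Pet' (r + 2) z (s \ t) := by
  classical
  -- choose the largest size
  have hbound : ∀ ρ, 1 ≤ ρ → ∀ y, Pet (Mf r ρ) ρ y s → ρ ≤ r := by
    intro ρ hρ y hy
    have hy' := hy
    obtain ⟨W, hW, hc, hsz, _⟩ := hy'
    have hpos : 0 < W.card := lt_of_lt_of_le (by omega) ((Mf_ge r ρ).trans hc)
    obtain ⟨w, hw⟩ := Finset.card_pos.1 hpos
    have := pet_size hs (Mf_ge r ρ) hρ hy w (hW hw)
    rw [hsz w hw] at this
    exact this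
  obtain ⟨ρ, ⟨hρ, hP⟩, hmax⟩ : ∃ ρ, (1 ≤ ρ ∧ Pet (Mf r ρ) ρ z s) ∧
      ∀ ρ', (1 ≤ ρ' ∧ Pet (Mf r ρ') ρ' z s) → ρ' ≤ ρ := by
    obtain ⟨ρ0, h0⟩ := hz
    have hne : ((Finset.range (r + 1)).filter (fun ρ => 1 ≤ ρ ∧ Pet (Mf r ρ) ρ z s)).Nonempty :=
      ⟨ρ0, Finset.mem_filter.2 ⟨Finset.mem_range.2 (by have := hbound ρ0 h0.1 z h0.2; omega), h0⟩⟩
    obtain ⟨ρ, h1, h2⟩ := Finset.exists_max_image _ (fun x => x) hne
    refine ⟨ρ, (Finset.mem_filter.1 h1).2, fun ρ' h => h2 ρ' (Finset.mem_filter.2 ⟨?_, h⟩)⟩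
    exact Finset.mem_range.2 (by have := hbound ρ' h.1 z h.2; omega)
  have hρr := hbound ρ hρ z hP
  obtain ⟨W, hW, hc, hsz, hPD⟩ := hP
  have hne : ∀ w ∈ W, z ≠ w := by
    intro w hw h
    have := hsz w hw
    rw [← h, df_self] at this
    simp at this; omega
  by_contra hcon
  -- many petals are special
  have h1 : (W.filter (fun w => w ∉ t)).card < r + 2 := by
    by_contra h
    push Not at h
    refine hcon ⟨W.filter (fun w => w ∉ t), fun w hw => ?_, h, fun w hw => ?_, ?_⟩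
    · obtain ⟨h1, h2⟩ := Finset.mem_filter.1 hw
      exact Finset.mem_sdiff.2 ⟨hW h1, h2⟩
    · exact hne w (Finset.mem_filter.1 hw).1
    · exact hPD.mono (Finset.filter_subset _ _)
  have h2 : r * Mf r (ρ + 1) < (W.filter (fun w => w ∈ t)).card := by
    have h3 := Finset.card_filter_add_card_filter_not (s := W) (fun w => w ∈ t)
    have h4 := Mf_succ hρr
    have h5 := Mf_ge r (ρ + 1)
    have h6 : (2 * r + 1) * Mf r (ρ + 1) = r * Mf r (ρ + 1) + r * Mf r (ρ + 1) + Mf r (ρ + 1) := by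
      ring
    have h7 : Mf r (ρ + 1) ≤ r * Mf r (ρ + 1) := Nat.le_mul_of_pos_left _ (by omega)
    omega
  -- pigeonhole
  have hchoice : ∀ w, ∃ ρ', w ∈ t → (1 ≤ ρ' ∧ Pet (Mf r ρ') ρ' w s) := by
    intro w
    by_cases hw : w ∈ t
    · obtain ⟨ρ', h⟩ := ht w hw; exact ⟨ρ', fun _ => h⟩
    · exact ⟨0, fun h => absurd h hw⟩
  choose R hR using hchoice
  obtain ⟨ρ', hρ', hfib⟩ := Finset.exists_lt_card_fiber_of_mul_lt_card_of_maps_to
    (s := W.filter (fun w => w ∈ t)) (t := Finset.Icc 1 r) (f := R) (n := Mf r (ρ + 1))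
    (fun w hw => by
      obtain ⟨_, hwt⟩ := Finset.mem_filter.1 hw
      exact Finset.mem_Icc.2 ⟨(hR w hwt).1, hbound _ (hR w hwt).1 w (hR w hwt).2⟩)
    (by rw [Nat.card_Icc]; simpa using h2)
  obtain ⟨hρ'1, hρ'r⟩ := Finset.mem_Icc.1 hρ'
  set K := Mf r (ρ + ρ') with hK
  have hKle : K ≤ Mf r (ρ + 1) := Mf_anti (by omega)
  obtain ⟨U, hU, hUc⟩ := Finset.exists_subset_card_eq (hKle.trans hfib.le)
  have hUW : ∀ u ∈ U, u ∈ W ∧ u ∈ t ∧ R u = ρ' := by
    intro u hu
    have := Finset.mem_filter.1 (hU hu)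
    have h3 := Finset.mem_filter.1 this.1
    exact ⟨h3.1, h3.2, this.2⟩
  have hQ : ∀ u, ∃ Q : Finset (Wd n), u ∈ U → (Q ⊆ s ∧ Mf r ρ' ≤ Q.card ∧
      (∀ w ∈ Q, (df u w).card = ρ') ∧ PD u Q) := by
    intro u
    by_cases hu : u ∈ U
    · obtain ⟨_, h3, h4⟩ := hUW u hu
      have h5 := (hR u h3).2
      rw [h4] at h5
      obtain ⟨Q, hQ⟩ := h5
      exact ⟨Q, fun _ => hQ⟩
    · exact ⟨∅, fun h => absurd h hu⟩
  choose QQ hQQ using hQ
  let A := U.biUnion (fun u => df z u)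
  have hA : A.card ≤ ρ * K := by
    refine (Finset.card_biUnion_le).trans ?_
    calc ∑ v ∈ U, (df z v).card ≤ ∑ v ∈ U, ρ := Finset.sum_le_sum fun v hv =>
          le_of_eq (hsz v (hUW v hv).1)
      _ = U.card * ρ := by simp
      _ ≤ ρ * K := by rw [mul_comm, hUc]
  have hbig : A.card + ρ' * K < Mf r ρ' := by
    have h3 := Mf_succ hρ'r
    have h4 : K ≤ Mf r (ρ' + 1) := Mf_anti (by omega)
    have h5 : ρ * K + ρ' * K ≤ 2 * r * K := by
      rw [← add_mul]; exact Nat.mul_le_mul_right _ (by omega)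
    have h6 : 2 * r * K ≤ 2 * r * Mf r (ρ' + 1) := Nat.mul_le_mul_left _ h4
    have h7 := Mf_ge r (ρ' + 1)
    have h8 : (2 * r + 1) * Mf r (ρ' + 1) = 2 * r * Mf r (ρ' + 1) + Mf r (ρ' + 1) := by ring
    omega
  obtain ⟨f, hf1, hf2⟩ := greedy ρ' A QQ U K hUc.le (fun u hu =>
    ⟨(hQQ u hu).2.2.1, (hQQ u hu).2.2.2, lt_of_lt_of_le hbig (hQQ u hu).2.1⟩)
  have hdisj : ∀ u ∈ U, ∀ u' ∈ U, Disjoint (df z u) (df u' (f u')) := by
    intro u hu u' hu'
    refine ((hf1 u' hu').2.mono_right ?_).symm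
    intro j hj
    exact Finset.mem_biUnion.2 ⟨u, hu, hj⟩
  have hdf : ∀ u ∈ U, df z (f u) = df z u ∪ df u (f u) := fun u hu =>
    df_union_of_disjoint (hdisj u hu u hu)
  have hDD : ∀ u ∈ U, ∀ u' ∈ U, u ≠ u' → Disjoint (df z (f u)) (df z (f u')) := by
    intro u hu u' hu' hne
    rw [hdf u hu, hdf u' hu', Finset.disjoint_union_left, Finset.disjoint_union_right,
      Finset.disjoint_union_right]
    exact ⟨⟨hPD u (hUW u hu).1 u' (hUW u' hu').1 hne, hdisj u hu u' hu'⟩,
      (hdisj u' hu' u hu).symm, hf2 u hu u' hu' hne⟩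
  have hsize : ∀ u ∈ U, (df z (f u)).card = ρ + ρ' := by
    intro u hu
    rw [hdf u hu, Finset.card_union_of_disjoint (hdisj u hu u hu), hsz u (hUW u hu).1,
      (hQQ u hu).2.2.1 _ (hf1 u hu).1]
  have hinj : Set.InjOn f (U : Set (Wd n)) := by
    intro u hu u' hu' he
    by_contra hne
    have h3 := hDD u hu u' hu' hne
    rw [← he, Finset.disjoint_self_iff_empty] at h3
    have h4 := hsize u hu
    rw [h3] at h4
    simp at h4; omega
  have hfinal : Pet (Mf r (ρ + ρ')) (ρ + ρ') z s := by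
    refine ⟨U.image f, ?_, ?_, ?_, ?_⟩
    · intro w hw
      obtain ⟨u, hu, rfl⟩ := Finset.mem_image.1 hw
      exact (hQQ u hu).1 (hf1 u hu).1
    · rw [Finset.card_image_of_injOn hinj, hUc]
    · intro w hw
      obtain ⟨u, hu, rfl⟩ := Finset.mem_image.1 hw
      exact hsize u hu
    · intro w hw w' hw' hne
      obtain ⟨u, hu, rfl⟩ := Finset.mem_image.1 hw
      obtain ⟨u', hu', rfl⟩ := Finset.mem_image.1 hw'
      exact hDD u hu u' hu' (fun h => hne (by rw [h]))
  have := hmax (ρ + ρ') ⟨by omega, hfinal⟩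
  omega

/-! ### existence of special vertices -/

/-- union of the difference sets of size `ρ` -/
def Un (s : Finset (Wd n)) (ρ : ℕ) (z : Wd n) : Finset (Fin n) :=
  (s.filter (fun w => (df z w).card = ρ)).biUnion (fun w => df z w)

theorem exists_max_PD (z : Wd n) (S : Finset (Wd n)) :
    ∃ W ⊆ S, PD z W ∧ ∀ w ∈ S, (df z w).Nonempty → ∃ w' ∈ W, ¬ Disjoint (df z w) (df z w') := by
  classical
  have hne : (S.powerset.filter (fun W => PD z W)).Nonempty :=
    ⟨∅, Finset.mem_filter.2 ⟨Finset.empty_mem_powerset _, fun w hw => absurd hw (by simp)⟩⟩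
  obtain ⟨W, h1, h2⟩ := Finset.exists_max_image _ Finset.card hne
  obtain ⟨hWS, hW⟩ := Finset.mem_filter.1 h1
  refine ⟨W, Finset.mem_powerset.1 hWS, hW, fun w hw hwne => ?_⟩
  by_contra hcon
  push Not at hcon
  have hwW : w ∉ W := by
    intro h
    have := hcon w h
    rw [Finset.disjoint_self_iff_empty] at this
    rw [this] at hwne
    simp at hwne
  have h3 : PD z (insert w W) := by
    intro a ha b hb hab
    rcases Finset.mem_insert.1 ha with ha' | ha'
    · rcases Finset.mem_insert.1 hb with hb' | hb'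
      · exact absurd (ha'.trans hb'.symm) hab
      · rw [ha']; exact hcon b hb'
    · rcases Finset.mem_insert.1 hb with hb' | hb'
      · rw [hb']; exact (hcon a ha').symm
      · exact hW a ha' b hb' hab
  have h4 := h2 (insert w W) (Finset.mem_filter.2 ⟨Finset.mem_powerset.2
    (Finset.insert_subset hw (Finset.mem_powerset.1 hWS)), h3⟩)
  rw [Finset.card_insert_of_notMem hwW] at h4
  omega

theorem Un_bound {r M : ℕ} {s : Finset (Wd n)}
    (h : ∀ z : Wd n, ∀ ρ, 1 ≤ ρ → ¬ Pet M ρ z s) :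
    ∀ ρ, ρ ≤ r → ∀ z : Wd n, (Un s ρ z).card + 1 ≤ (r * M + 1) ^ ρ := by
  classical
  intro ρ
  induction ρ with
  | zero =>
    intro _ z
    have : Un s 0 z = ∅ := by
      rw [Un, Finset.eq_empty_iff_forall_notMem]
      intro j hj
      obtain ⟨w, hw, hj⟩ := Finset.mem_biUnion.1 hj
      have := (Finset.mem_filter.1 hw).2
      rw [Finset.card_eq_zero] at this
      rw [this] at hj
      simp at hj
    rw [this]; simp
  | succ ρ ih =>
    intro hρ z
    obtain ⟨W, hWS, hPD, hmax⟩ := exists_max_PD z (s.filter (fun w => (df z w).card = ρ + 1))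
    have hWc : W.card < M := by
      by_contra hcon
      push Not at hcon
      exact h z (ρ + 1) (by omega) ⟨W, fun w hw => (Finset.mem_filter.1 (hWS hw)).1, hcon,
        fun w hw => (Finset.mem_filter.1 (hWS hw)).2, hPD⟩
    let H := W.biUnion (fun w => df z w)
    have hH : H.card ≤ r * M := by
      refine (Finset.card_biUnion_le).trans ?_
      calc ∑ v ∈ W, (df z v).card ≤ ∑ v ∈ W, r := Finset.sum_le_sum fun v hv => by
            rw [(Finset.mem_filter.1 (hWS hv)).2]; exact hρ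
        _ = W.card * r := by simp
        _ ≤ r * M := by rw [mul_comm]; exact Nat.mul_le_mul_left _ hWc.le
    let fz : Fin n → Wd n := fun x => Function.update z x (!z x)
    have hsub : Un s (ρ + 1) z ⊆ H.biUnion (fun x => insert x (Un s ρ (fz x))) := by
      intro j hj
      obtain ⟨w, hw, hj⟩ := Finset.mem_biUnion.1 hj
      obtain ⟨hws, hwc⟩ := Finset.mem_filter.1 hw
      obtain ⟨w', hw', hnd⟩ := hmax w hw ⟨j, hj⟩
      obtain ⟨x, hx1, hx2⟩ := Finset.not_disjoint_iff.1 hnd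
      refine Finset.mem_biUnion.2 ⟨x, Finset.mem_biUnion.2 ⟨w', hw', hx2⟩, ?_⟩
      have hdf : df (fz x) w = (df z w).erase x := by
        ext i
        rw [Finset.mem_erase, mem_df, mem_df]
        by_cases hi : i = x
        · subst hi
          simp only [fz, Function.update_self]
          rw [mem_df] at hx1
          have aux : ∀ a b : Bool, a ≠ b → ¬ ((!a) ≠ b) := by decide
          exact ⟨fun h => absurd h (aux _ _ hx1), fun h => absurd rfl h.1⟩
        · simp only [fz, Function.update_of_ne hi]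
          exact ⟨fun h => ⟨hi, h⟩, fun h => h.2⟩
      by_cases hjx : j = x
      · rw [hjx]; exact Finset.mem_insert_self _ _
      · refine Finset.mem_insert_of_mem (Finset.mem_biUnion.2 ⟨w, Finset.mem_filter.2
          ⟨hws, ?_⟩, ?_⟩)
        · rw [hdf, Finset.card_erase_of_mem hx1, hwc]; omega
        · rw [hdf]; exact Finset.mem_erase.2 ⟨hjx, hj⟩
    have h1 : (Un s (ρ + 1) z).card ≤ H.card * (r * M + 1) ^ ρ := by
      refine (Finset.card_le_card hsub).trans ((Finset.card_biUnion_le).trans ?_)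
      calc ∑ x ∈ H, (insert x (Un s ρ (fz x))).card ≤ ∑ x ∈ H, (r * M + 1) ^ ρ :=
            Finset.sum_le_sum fun x _ => (Finset.card_insert_le _ _).trans (ih (by omega) _)
        _ = _ := by simp
    have h2 : H.card * (r * M + 1) ^ ρ ≤ (r * M) * (r * M + 1) ^ ρ :=
      Nat.mul_le_mul_right _ hH
    have h3 : 1 ≤ (r * M + 1) ^ ρ := Nat.one_le_pow _ _ (by omega)
    rw [pow_succ]
    nlinarith

/-- the explicit bound -/
def bnd (r : ℕ) : ℕ := r * (r * ((r + 2) * (2 * r + 1) ^ r) + 1) ^ r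

theorem exists_Zs {r : ℕ} {s : Finset (Wd n)} (hs : Clq r s) (hne : s.Nonempty)
    (hbig : bnd r < (spn s).card) : ∃ z, Zs r s z := by
  classical
  by_contra hcon
  have hM : ∀ z : Wd n, ∀ ρ, 1 ≤ ρ → ¬ Pet ((r + 2) * (2 * r + 1) ^ r) ρ z s := by
    intro z ρ hρ hP
    refine hcon ⟨z, ρ, hρ, hP.le ?_⟩
    have : Mf r 1 = (r + 2) * (2 * r + 1) ^ r := by simp [Mf]
    rw [← this]
    exact Mf_anti hρ
  obtain ⟨z0, hz0⟩ := hne
  have hsub : spn s ⊆ (Finset.Icc 1 r).biUnion (fun ρ => Un s ρ z0) := by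
    intro j hj
    obtain ⟨x, hx, y, hy, hxy⟩ := mem_spn.1 hj
    have key : ∃ w ∈ s, z0 j ≠ w j := by
      by_cases h : z0 j = x j
      · exact ⟨y, hy, by rw [h]; exact hxy⟩
      · exact ⟨x, hx, h⟩
    obtain ⟨w, hw, hjw⟩ := key
    have hjd : j ∈ df z0 w := mem_df.2 hjw
    refine Finset.mem_biUnion.2 ⟨(df z0 w).card, Finset.mem_Icc.2
      ⟨Finset.card_pos.2 ⟨j, hjd⟩, hs z0 hz0 w hw⟩, ?_⟩
    exact Finset.mem_biUnion.2 ⟨w, Finset.mem_filter.2 ⟨hw, rfl⟩, hjd⟩
  have h1 : (spn s).card ≤ bnd r := by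
    refine (Finset.card_le_card hsub).trans ((Finset.card_biUnion_le).trans ?_)
    calc ∑ ρ ∈ Finset.Icc 1 r, (Un s ρ z0).card
        ≤ ∑ ρ ∈ Finset.Icc 1 r, (r * ((r + 2) * (2 * r + 1) ^ r) + 1) ^ r := by
          refine Finset.sum_le_sum fun ρ hρ => ?_
          obtain ⟨_, h3⟩ := Finset.mem_Icc.1 hρ
          have h4 := Un_bound (r := r) hM ρ h3 z0
          have h5 : (r * ((r + 2) * (2 * r + 1) ^ r) + 1) ^ ρ ≤
            (r * ((r + 2) * (2 * r + 1) ^ r) + 1) ^ r := Nat.pow_le_pow_right (by omega) h3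
          omega
      _ = bnd r := by simp [bnd]
  omega

/-! ### acyclicity -/

/-- simplices of cubic dimension exactly `p` -/
def Sx (r p : ℕ) (s : Finset (Wd n)) : Prop := s.Nonempty ∧ Clq r s ∧ (spn s).card = p

theorem Sx_conv {r p : ℕ} {s t u : Finset (Wd n)} (hs : Sx r p s) (hu : Sx r p u)
    (hst : s ⊆ t) (htu : t ⊆ u) : Sx r p t := by
  refine ⟨hs.1.mono hst, fun x hx y hy => hu.2.1 x (htu hx) y (htu hy), ?_⟩
  have h1 := Finset.card_le_card (spn_mono hst)
  have h2 := Finset.card_le_card (spn_mono htu)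
  have h3 := hs.2.2
  have h4 := hu.2.2
  omega

/-- the big index set -/
def PP (r p : ℕ) (s z : Finset (Wd n)) : Prop := Sx r p s ∧ ∀ x ∈ z, Pet' (r + 2) x (s \ z)

/-- the small index set -/
def QQ (r p : ℕ) (s z : Finset (Wd n)) : Prop := Sx r p s ∧ ∀ x ∈ z, Zs r s x

theorem PP_adm (r p : ℕ) : Adm (PP (n := n) r p) where
  conv s t u z hs hst htu hu := ⟨Sx_conv hs.1 hu.1 hst htu, fun x hx =>
    (hs.2 x hx).mono (Finset.sdiff_subset_sdiff hst subset_rfl)⟩
  down s z z' hs hz := ⟨hs.1, fun x hx =>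
    (hs.2 x (hz hx)).mono (Finset.sdiff_subset_sdiff subset_rfl hz)⟩
  mono s t z hs hst ht := ⟨ht.1, fun x hx =>
    (hs.2 x hx).mono (Finset.sdiff_subset_sdiff hst subset_rfl)⟩

theorem QQ_adm (r p : ℕ) : Adm (QQ (n := n) r p) where
  conv s t u z hs hst htu hu := ⟨Sx_conv hs.1 hu.1 hst htu, fun x hx => (hs.2 x hx).mono hst⟩
  down s z z' hs hz := ⟨hs.1, fun x hx => hs.2 x (hz hx)⟩
  mono s t z hs hst ht := ⟨ht.1, fun x hx => (hs.2 x hx).mono hst⟩

theorem Sx_toggle {r p : ℕ} {s b : Finset (Wd n)} {x : Wd n} (hs : Sx r p s)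
    (hb : b ⊆ s) (h : Pet' (r + 2) x b) : Sx r p (insert x s) ∧ Sx r p (s.erase x) := by
  have hspn := spn_of_pet (m := r + 2) (by omega) h hb
  have h1 := spn_mono (Finset.erase_subset x s)
  have h2 := spn_mono (Finset.subset_insert x s)
  have e1 : spn (s.erase x) = spn s := Finset.Subset.antisymm h1 (by rw [← hspn]; exact h2)
  have e2 : spn (insert x s) = spn s := by rw [hspn, e1]
  have hadj : ∀ y ∈ s, (df y x).card ≤ r := fun y hy =>
    adj_of_pet le_rfl h (fun w hw => hs.2.1 y hy w (hb hw))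
  refine ⟨⟨⟨x, Finset.mem_insert_self x s⟩, ?_, by rw [e2]; exact hs.2.2⟩, ?_, ?_, ?_⟩
  · intro a ha b hb
    rcases Finset.mem_insert.1 ha with ha' | ha'
    · rcases Finset.mem_insert.1 hb with hb' | hb'
      · rw [ha', hb', df_self]; simp
      · rw [ha', df_comm]; exact hadj b hb'
    · rcases Finset.mem_insert.1 hb with hb' | hb'
      · rw [hb']; exact hadj a ha'
      · exact hs.2.1 a ha' b hb'
  · obtain ⟨W, hW, hc, hne, _⟩ := h
    obtain ⟨w, hw⟩ := Finset.card_pos.1 (show 0 < W.card by omega)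
    exact ⟨w, Finset.mem_erase.2 ⟨(hne w hw).symm, hb (hW hw)⟩⟩
  · exact fun a ha b hb => hs.2.1 a (Finset.mem_of_mem_erase ha) b (Finset.mem_of_mem_erase hb)
  · rw [e1]; exact hs.2.2

/-- Acyclicity of the complex of simplices of cubic dimension `p`, for large `p`. -/
theorem acyclic_col {r p : ℕ} (hp : bnd r < p) {k : Type} [CommRing k] {o : Wd n → ℕ}
    (ho : Function.Injective o) (f : Finset (Wd n) → k) (hf : ∀ s, ¬ Sx r p s → f s = 0)
    (hcyc : ∀ s, Sx r p s → bd o f s = 0) :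
    ∃ g : Finset (Wd n) → k, (∀ s, ¬ Sx r p s → g s = 0) ∧ ∀ s, Sx r p s → bd o g s = f s := by
  classical
  have e : ∀ s : Finset (Wd n), PP r p s ∅ ↔ Sx r p s := fun s =>
    ⟨fun h => h.1, fun h => ⟨h, fun x hx => absurd hx (by simp)⟩⟩
  have w0 : Wd n := fun _ => false
  let c : Finset (Wd n) → Wd n := fun z => if h : z.Nonempty then h.choose else w0
  have hcm : ∀ z, z.Nonempty → c z ∈ z := by
    intro z hz
    simp only [c, dif_pos hz]
    exact hz.choose_spec
  let x : Finset (Wd n) → Wd n := fun s => if h : ∃ z, Zs r s z then h.choose else w0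
  have hxm : ∀ s, Sx r p s → Zs r s (x s) := by
    intro s hs
    have h := exists_Zs hs.2.1 hs.1 (by rw [hs.2.2]; exact hp)
    simp only [x, dif_pos h]
    exact h.choose_spec
  obtain ⟨g, hg1, hg2⟩ := acyclic ho (PP_adm r p) (QQ_adm r p) (c := c) (x := x)
    (fun s z h => ⟨h.1, fun y hy => Zs_petals h.1.2.1 (h.2 y hy) z h.2⟩)
    (fun s h => ⟨h.1, fun y hy => absurd hy (by simp)⟩)
    (fun s z h hz => by
      have hcz := hcm z hz
      have h1 := Sx_toggle h.1 Finset.sdiff_subset (h.2 _ hcz)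
      refine ⟨⟨h1.1, fun y hy => ?_⟩, ⟨h1.2, fun y hy => ?_⟩⟩
      · have : insert (c z) s \ z = s \ z := by
          rw [Finset.insert_sdiff_of_mem _ hcz]
        rw [this]; exact h.2 y hy
      · have : s.erase (c z) \ z = s \ z := by
          ext u
          simp only [Finset.mem_sdiff, Finset.mem_erase]
          constructor
          · rintro ⟨⟨_, h3⟩, h4⟩; exact ⟨h3, h4⟩
          · rintro ⟨h3, h4⟩
            exact ⟨⟨fun h5 => h4 (h5 ▸ hcz), h3⟩, h4⟩
        rw [this]; exact h.2 y hy)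
    (fun s z h => by
      refine ⟨⟨h.1, fun y hy => ?_⟩, ⟨h.1, fun y hy => h.2 y (Finset.mem_of_mem_erase hy)⟩⟩
      rcases Finset.mem_insert.1 hy with rfl | hy
      · exact hxm s h.1
      · exact h.2 y hy)
    f (fun s hs => hf s (fun h => hs ((e s).2 h))) (fun s hs => hcyc s ((e s).1 hs))
  exact ⟨g, fun s hs => hg1 s (fun h => hs ((e s).1 h)), fun s hs => hg2 s ((e s).2 hs)⟩

end Pool.Agent.V11212.HC
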