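import Pool.Agent.V11212.HC.Petal

/-!
# The cubic dimension filtration of hypercube Vietoris-Rips complexes and its spectral sequence
-/

namespace Pool.Agent.V11212.HC

open Finset

/-- Binary words of length `n`: the vertices of the hypercube. -/
abbrev Word (n : ℕ) : Type := Fin n → Bool

/-- `σ` is a simplex of the Vietoris-Rips complex of the hypercube at scale `r`. -/
def IsSimplex (n r : ℕ) (σ : Finset (Word n)) : Prop :=
  σ.Nonempty ∧ ∀ x ∈ σ, ∀ y ∈ σ, hammingDist x y ≤ r

/-- The cubic dimension: the number of coordinates on which the vertices of `σ` do not all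
agree. -/
def cubicDim {n : ℕ} (σ : Finset (Word n)) : ℕ :=
  (univ.filter (fun j : Fin n => ∃ x ∈ σ, ∃ y ∈ σ, x j ≠ y j)).card

/-- Chains: functions on the finite sets of vertices (the coefficient of each simplex). -/
abbrev Chain (n : ℕ) (k : Type) : Type := Finset (Word n) → k

/-- The simplicial boundary, for the total order of the vertices pulled back from `ℕ` by `o`:
a simplex with vertices `v_0 < ... < v_d` is sent to the alternating sum of its faces, the empty
face being discarded.  So the coefficient of `τ ≠ ∅` in the boundary of `c` is the sum over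
`v ∉ τ` of the coefficient of `τ ∪ {v}` in `c` times `(-1) ^ i`, `v` being the `i`-th
vertex of `τ ∪ {v}`. -/
def bdry {n : ℕ} {k : Type} [Field k] (o : Word n → ℕ) : Chain n k →ₗ[k] Chain n k where
  toFun c τ := if τ = ∅ then 0 else
    ∑ v, if v ∈ τ then 0 else (-1) ^ (τ.filter (fun u => o u < o v)).card * c (insert v τ)
  map_add' c c' := by
    funext τ
    simp only [Pi.add_apply]
    split_ifs
    · simp
    · rw [← Finset.sum_add_distrib]
      refine Finset.sum_congr rfl fun v _ => ?_
      split_ifs
      · simp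
      · ring
  map_smul' a c := by
    funext τ
    simp only [Pi.smul_apply, smul_eq_mul, RingHom.id_apply]
    split_ifs
    · simp
    · rw [Finset.mul_sum]
      refine Finset.sum_congr rfl fun v _ => ?_
      split_ifs
      · simp
      · ring

/-- The `d`-chains of the subcomplex of the simplices of cubic dimension at most `p`. -/
def FC (n r : ℕ) (k : Type) [Field k] (p d : ℤ) : Submodule k (Chain n k) where
  carrier := {c | ∀ σ, c σ ≠ 0 → IsSimplex n r σ ∧ (σ.card : ℤ) = d + 1 ∧ (cubicDim σ : ℤ) ≤ p}
  zero_mem' := fun σ h => absurd rfl h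
  add_mem' := by
    intro a b ha hb σ h
    by_cases h1 : a σ = 0
    · refine hb σ (fun h2 => h ?_)
      simp [h1, h2]
    · exact ha σ h1
  smul_mem' := by
    intro a c hc σ h
    refine hc σ (fun h2 => h ?_)
    simp [h2]

variable {n r : ℕ} {k : Type} [Field k] {o : Word n → ℕ}

theorem mem_FC {p d : ℤ} {c : Chain n k} : c ∈ FC n r k p d ↔
    ∀ σ, c σ ≠ 0 → IsSimplex n r σ ∧ (σ.card : ℤ) = d + 1 ∧ (cubicDim σ : ℤ) ≤ p := Iff.rfl

theorem bdry_apply (c : Chain n k) (τ : Finset (Word n)) : bdry o c τ =
    if τ = ∅ then 0 else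
    ∑ v, if v ∈ τ then 0 else (-1) ^ (τ.filter (fun u => o u < o v)).card * c (insert v τ) := rfl

theorem bdry_eq_bd (c : Chain n k) {τ : Finset (Word n)} (h : τ ≠ ∅) :
    bdry o c τ = bd o c τ := by
  rw [bdry_apply, if_neg h]
  rfl

theorem cubicDim_mono {σ τ : Finset (Word n)} (h : σ ⊆ τ) : cubicDim σ ≤ cubicDim τ :=
  Finset.card_le_card (spn_mono h)

theorem IsSimplex.mono {σ τ : Finset (Word n)} (h : IsSimplex n r τ) (hne : σ.Nonempty)
    (hst : σ ⊆ τ) : IsSimplex n r σ :=
  ⟨hne, fun x hx y hy => h.2 x (hst hx) y (hst hy)⟩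

theorem bdry_mem {p d d' : ℤ} (hd : d' + 1 = d) {c : Chain n k} (hc : c ∈ FC n r k p d) :
    bdry o c ∈ FC n r k p d' := by
  intro σ h
  rw [bdry_apply] at h
  split_ifs at h with h0
  · exact absurd rfl h
  · obtain ⟨v, _, hv⟩ := Finset.exists_ne_zero_of_sum_ne_zero h
    split_ifs at hv with hvs
    · exact absurd rfl hv
    · obtain ⟨h1, h2, h3⟩ := hc _ (right_ne_zero_of_mul hv)
      refine ⟨h1.mono (Finset.nonempty_iff_ne_empty.2 h0) (Finset.subset_insert v σ), ?_, ?_⟩
      · rw [Finset.card_insert_of_notMem hvs] at h2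
        push_cast at h2
        omega
      · have := cubicDim_mono (Finset.subset_insert v σ)
        omega

theorem bdry_bdry (ho : Function.Injective o) (c : Chain n k) : bdry o (bdry o c) = 0 := by
  classical
  funext τ
  by_cases hτ : τ = ∅
  · rw [bdry_apply, if_pos hτ]; rfl
  have hA : Adm (fun (s z : Finset (Word n)) => s ≠ ∅) :=
    ⟨fun s t u z hs hst _ _ h => hs (Finset.subset_empty.1 (h ▸ hst)), fun _ _ _ h _ => h,
      fun _ _ _ _ _ h => h⟩
  have h := DB_DB (o := o) ho hA (F := fun s _ => if s = ∅ then 0 else c s)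
    (fun s z h => by
      have : s = ∅ := not_not.1 h
      simp [this])
  have h2 := congrFun (congrFun h τ) ∅
  have e1 : ∀ (F : Finset (Word n) → k) (s : Finset (Word n)),
      bd o (fun t => if t = ∅ then 0 else F t) s = bd o F s := by
    intro F s
    rw [bd, bd]
    refine Finset.sum_congr rfl fun v _ => ?_
    rw [if_neg (Finset.insert_ne_empty v s)]
  rw [DB, if_pos hτ] at h2
  have e2 : (fun t => DB o (fun (s z : Finset (Word n)) => s ≠ ∅)
      (fun s _ => if s = ∅ then 0 else c s) t ∅) = fun t => if t = ∅ then 0 else bd o c t := by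
    funext t
    rw [DB]
    by_cases ht : t = ∅
    · simp [ht]
    · rw [if_pos ht, if_neg ht, e1]
  rw [e2, e1] at h2
  rw [bdry_eq_bd _ hτ]
  have e3 : bdry o c = fun t => if t = ∅ then 0 else bd o c t := by
    funext t
    by_cases ht : t = ∅
    · rw [bdry_apply, if_pos ht, if_pos ht]
    · rw [if_neg ht, bdry_eq_bd _ ht]
  rw [e3, e1]
  exact h2

theorem FC_mono {p p' d : ℤ} (h : p ≤ p') : FC n r k p d ≤ FC n r k p' d :=
  fun _ hc σ hσ => ⟨(hc σ hσ).1, (hc σ hσ).2.1, (hc σ hσ).2.2.trans h⟩

theorem FC_neg {p d : ℤ} (h : p < 0) {c : Chain n k} (hc : c ∈ FC n r k p d) : c = 0 := by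
  funext σ
  by_contra hne
  have := (hc σ hne).2.2
  omega

/-- **Key statement**: relative cycles of large cubic dimension are relative boundaries. -/
theorem key (ho : Function.Injective o) {p d : ℤ} (hp : (bnd r : ℤ) < p) {x : Chain n k}
    (hx : x ∈ FC n r k p d) (hdx : bdry o x ∈ FC n r k (p - 1) (d - 1)) :
    ∃ y ∈ FC n r k p (d + 1), x - bdry o y ∈ FC n r k (p - 1) d := by
  classical
  obtain ⟨P, rfl⟩ : ∃ P : ℕ, p = P := ⟨p.toNat, by omega⟩
  have hP : bnd r < P := by exact_mod_cast hp
  have hS : ∀ s : Finset (Word n), Sx r P s ↔ IsSimplex n r s ∧ cubicDim s = P := by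
    intro s
    exact ⟨fun h => ⟨⟨h.1, h.2.1⟩, h.2.2⟩, fun h => ⟨h.1.1, h.1.2, h.2⟩⟩
  obtain ⟨g, hg1, hg2⟩ := acyclic_col hP ho (fun s => if Sx r P s then x s else 0)
    (fun s hs => if_neg hs) (fun s hs => by
      have h1 : bd o (fun s => if Sx r P s then x s else 0) s = bd o x s := by
        rw [bd, bd]
        refine Finset.sum_congr rfl fun v _ => ?_
        by_cases hv : v ∈ s
        · rw [if_pos hv, if_pos hv]
        · rw [if_neg hv, if_neg hv]
          by_cases hSv : Sx r P (insert v s)
          · rw [if_pos hSv]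
          · rw [if_neg hSv]
            by_cases hxv : x (insert v s) = 0
            · rw [hxv]
            · exfalso
              obtain ⟨h1, _, h3⟩ := hx _ hxv
              apply hSv
              rw [hS]
              refine ⟨h1, le_antisymm (by exact_mod_cast h3) ?_⟩
              rw [← ((hS s).1 hs).2]
              exact cubicDim_mono (Finset.subset_insert v s)
      rw [h1, ← bdry_eq_bd x hs.1.ne_empty]
      by_contra hne
      have h2 := (hdx s hne).2.2
      have h3 := ((hS s).1 hs).2
      omega)
  refine ⟨fun s => if (s.card : ℤ) = d + 2 then g s else 0, ?_, ?_⟩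
  · intro s hs
    simp only at hs
    split_ifs at hs with hc
    · have : Sx r P s := by
        by_contra h; exact hs (hg1 s h)
      rw [hS] at this
      exact ⟨this.1, by omega, by omega⟩
    · exact absurd rfl hs
  · intro s hs
    have hy : bdry o (fun s => if (s.card : ℤ) = d + 2 then g s else 0) s =
        if (s.card : ℤ) = d + 1 then bdry o g s else 0 := by
      rw [bdry_apply, bdry_apply]
      by_cases h0 : s = ∅
      · simp [h0]
      · rw [if_neg h0, if_neg h0]
        by_cases hc : (s.card : ℤ) = d + 1
        · rw [if_pos hc]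
          refine Finset.sum_congr rfl fun v _ => ?_
          by_cases hv : v ∈ s
          · rw [if_pos hv, if_pos hv]
          · rw [if_neg hv, if_neg hv, if_pos]
            rw [Finset.card_insert_of_notMem hv]; push_cast; omega
        · rw [if_neg hc]
          refine Finset.sum_eq_zero fun v _ => ?_
          by_cases hv : v ∈ s
          · rw [if_pos hv]
          · rw [if_neg hv, if_neg, mul_zero]
            rw [Finset.card_insert_of_notMem hv]; push_cast; omega
    rw [Pi.sub_apply, hy] at hs
    have hne : x s ≠ 0 ∨ (if (s.card : ℤ) = d + 1 then bdry o g s else 0) ≠ 0 := by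
      by_contra h
      push Not at h
      rw [h.1, h.2, sub_zero] at hs
      exact hs rfl
    have hbasic : IsSimplex n r s ∧ (s.card : ℤ) = d + 1 ∧ cubicDim s ≤ P := by
      rcases hne with h | h
      · obtain ⟨h1, h2, h3⟩ := hx s h
        exact ⟨h1, h2, by exact_mod_cast h3⟩
      · split_ifs at h with hc
        · rw [bdry_apply] at h
          split_ifs at h with h0
          · exact absurd rfl h
          · obtain ⟨v, _, hv⟩ := Finset.exists_ne_zero_of_sum_ne_zero h
            split_ifs at hv with hvs
            · exact absurd rfl hv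
            · have h1 : Sx r P (insert v s) := by
                by_contra h; exact (right_ne_zero_of_mul hv) (hg1 _ h)
              rw [hS] at h1
              refine ⟨h1.1.mono (Finset.nonempty_iff_ne_empty.2 h0) (Finset.subset_insert v s),
                hc, ?_⟩
              rw [← h1.2]
              exact cubicDim_mono (Finset.subset_insert v s)
        · exact absurd rfl h
    refine ⟨hbasic.1, hbasic.2.1, ?_⟩
    have hlt : cubicDim s ≠ P := by
      intro he
      have hSs : Sx r P s := (hS s).2 ⟨hbasic.1, he⟩
      have h1 := hg2 s hSs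
      rw [if_pos hSs, ← bdry_eq_bd g hSs.1.ne_empty] at h1
      rw [if_pos hbasic.2.1, h1, sub_self] at hs
      exact hs rfl
    have := hbasic.2.2
    omega

end Pool.Agent.V11212.HC
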